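import Mathlib
import Pool.Agent.Q137.Tang.Main

set_option autoImplicit false

open Q137.Tang

namespace Pool.Agent.Results.MP_1a6bb7_co.SuperlinearTangencies

/-- A family of `n` bi-infinite `x`-monotone curves, given as the graphs of the continuous
functions `f i`: any two of them share finitely many points (so they are different) and no point
lies on three of them. -/
structure IsFamily {n : ℕ} (f : Fin n → ℝ → ℝ) : Prop where
  continuous : ∀ i, Continuous (f i)
  finite : ∀ i j, i ≠ j → {x : ℝ | f i x = f j x}.Finite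
  no_three : ∀ i j l, i ≠ j → j ≠ l → i ≠ l → ∀ x, ¬ (f i x = f j x ∧ f j x = f l x)

/-- Any two curves share at most `k` points. -/
def KIntersecting {n : ℕ} (k : ℕ) (f : Fin n → ℝ → ℝ) : Prop :=
  ∀ i j, i ≠ j → {x : ℝ | f i x = f j x}.ncard ≤ k

/-- Any two curves share at least one point. -/
def PairwiseIntersecting {n : ℕ} (f : Fin n → ℝ → ℝ) : Prop :=
  ∀ i j, i ≠ j → ∃ x : ℝ, f i x = f j x

/-- The graphs of `g` and `h` share exactly one point and do not cross there: one of them is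
never above the other. -/
def Tangent (g h : ℝ → ℝ) : Prop :=
  ∃ x₀ : ℝ, (∀ x, g x = h x ↔ x = x₀) ∧ ((∀ x, g x ≤ h x) ∨ ∀ x, h x ≤ g x)

open Classical in
/-- The number of tangencies: the number of unordered pairs of tangent curves. -/
noncomputable def tangencies {n : ℕ} (f : Fin n → ℝ → ℝ) : ℕ :=
  ((Finset.univ : Finset (Fin n × Fin n)).filter
    fun p => p.1 < p.2 ∧ Tangent (f p.1) (f p.2)).card

/-- points first, then lines -/
def enum (s m : ℕ) : Pt s m ⊕ Ln s m ≃ Fin (s ^ (m + 1) + (m + 1) * s ^ m) :=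
  (Equiv.sumCongr finFunctionFinEquiv
    ((Equiv.prodCongr (Equiv.refl _) finFunctionFinEquiv).trans finProdFinEquiv)).trans
    finSumFinEquiv

lemma enum_lt {s m : ℕ} (v : Pt s m) (l : Ln s m) :
    enum s m (Sum.inl v) < enum s m (Sum.inr l) := by
  simp only [enum, Equiv.trans_apply, Equiv.sumCongr_apply, Sum.map_inl, Sum.map_inr,
    finSumFinEquiv_apply_left, finSumFinEquiv_apply_right]
  rw [Fin.lt_def, Fin.val_castAdd, Fin.val_natAdd]
  have := (finFunctionFinEquiv v).2
  omega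

/-- the point of the line with coordinate `c` in its direction -/
def pnt {s m : ℕ} (q : Ln s m × Fin s) : Pt s m :=
  Fin.insertNth (α := fun _ => Fin s) q.1.1 q.2 q.1.2

lemma pnt_inc {s m : ℕ} (q : Ln s m × Fin s) (e : Fin (m + 1)) (he : e ≠ q.1.1) :
    (pnt q e : ℕ) = car q.1 0 e := by
  obtain ⟨i, rfl⟩ := Fin.exists_succAbove_eq he
  rw [car_succAbove, pnt, Fin.insertNth_apply_succAbove]

lemma pnt_same {s m : ℕ} (q : Ln s m × Fin s) : pnt q q.1.1 = q.2 := by
  rw [pnt, Fin.insertNth_apply_same]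

theorem grid (s m : ℕ) (hs : 1 ≤ s) :
    ∃ f : Fin (s ^ (m + 1) + (m + 1) * s ^ m) → ℝ → ℝ, IsFamily f ∧ PairwiseIntersecting f ∧
      KIntersecting 3 f ∧ (m + 1) * s ^ (m + 1) ≤ tangencies f := by
  classical
  obtain ⟨f, h1, h2, h3, h4, h5, h6⟩ := curves (s := s) (m := m) hs
  have hinj : ∀ {i j}, i ≠ j → (enum s m).symm i ≠ (enum s m).symm j :=
    fun h => (enum s m).symm.injective.ne h
  refine ⟨fun i => f ((enum s m).symm i), ⟨fun i => h1 _, fun i j h => h2 _ _ (hinj h),
    fun i j l a b c => h3 _ _ _ (hinj a) (hinj b) (hinj c)⟩, fun i j h => h5 _ _ (hinj h),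
    fun i j h => h4 _ _ (hinj h), ?_⟩
  have hcard : (Finset.univ : Finset (Ln s m × Fin s)).card = (m + 1) * s ^ (m + 1) := by
    rw [Finset.card_univ]
    simp only [Fintype.card_prod, Fintype.card_fin, Fintype.card_pi, Finset.prod_const,
      Finset.card_univ]
    ring
  rw [← hcard]
  unfold tangencies
  apply Finset.card_le_card_of_injOn
    (fun q => (enum s m (Sum.inl (pnt q)), enum s m (Sum.inr q.1)))
  · intro q _
    simp only [Finset.coe_filter, Finset.mem_univ, true_and]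
    refine ⟨enum_lt _ _, ?_⟩
    obtain ⟨x₀, hx, hle⟩ := h6 (pnt q) q.1 (pnt_inc q)
    refine ⟨x₀, ?_, Or.inl ?_⟩
    · intro x
      simp only [Equiv.symm_apply_apply]
      exact hx x
    · intro x
      simp only [Equiv.symm_apply_apply]
      exact hle x
  · intro q _ q' _ h
    simp only [Prod.mk.injEq, EmbeddingLike.apply_eq_iff_eq, Sum.inl.injEq, Sum.inr.injEq] at h
    obtain ⟨a, b⟩ := h
    refine Prod.ext b ?_
    rw [← pnt_same q, ← pnt_same q', a, b]

/-- **Disproof of the linear bound, already for `k = 3`.**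
(1) For all `s ≥ 1` and `M = m + 1 ≥ 1` there is a family of `s ^ M + M * s ^ (M - 1)` pairwise
intersecting bi-infinite `x`-monotone curves, any two sharing at most three points, with at least
`M * s ^ M` tangencies.
(2) For every `k ≥ 3` and every `C` there is a family of some size `n` of pairwise intersecting
`k`-intersecting curves with more than `C * n` tangencies.
(3) So the statement of the question is false. -/
theorem result :
    (∀ s m : ℕ, 1 ≤ s → ∃ f : Fin (s ^ (m + 1) + (m + 1) * s ^ m) → ℝ → ℝ, IsFamily f ∧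
      PairwiseIntersecting f ∧ KIntersecting 3 f ∧ (m + 1) * s ^ (m + 1) ≤ tangencies f) ∧
    (∀ k : ℕ, 3 ≤ k → ∀ C : ℝ, ∃ (n : ℕ) (f : Fin n → ℝ → ℝ), IsFamily f ∧
      PairwiseIntersecting f ∧ KIntersecting k f ∧ C * n < tangencies f) ∧
    ¬ (∀ k : ℕ, 1 ≤ k → ∃ C : ℝ, ∀ (n : ℕ) (f : Fin n → ℝ → ℝ), IsFamily f →
      PairwiseIntersecting f → KIntersecting k f → (tangencies f : ℝ) ≤ C * n) := by
  have h1 := grid
  have h2 : ∀ k : ℕ, 3 ≤ k → ∀ C : ℝ, ∃ (n : ℕ) (f : Fin n → ℝ → ℝ), IsFamily f ∧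
      PairwiseIntersecting f ∧ KIntersecting k f ∧ C * n < tangencies f := by
    intro k hk C
    obtain ⟨m, hm⟩ := exists_nat_gt (2 * C)
    obtain ⟨f, a, b, c, d⟩ := h1 (m + 1) m (by omega)
    refine ⟨_, f, a, b, fun i j h => (c i j h).trans hk, ?_⟩
    have e1 : (m + 1) ^ (m + 1) + (m + 1) * (m + 1) ^ m = 2 * (m + 1) ^ (m + 1) := by ring
    have e2 : (0 : ℝ) < ((m + 1 : ℕ) : ℝ) ^ (m + 1) := by positivity
    have e3 : (((m + 1) * (m + 1) ^ (m + 1) : ℕ) : ℝ) ≤ tangencies f := by exact_mod_cast d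
    refine lt_of_lt_of_le ?_ e3
    rw [e1]
    push_cast at e2 ⊢
    have e4 : 2 * C < (m : ℝ) + 1 := by linarith
    have := mul_lt_mul_of_pos_right e4 e2
    linarith
  refine ⟨h1, h2, ?_⟩
  intro h
  obtain ⟨C, hC⟩ := h 3 (by norm_num)
  obtain ⟨n, f, a, b, c, d⟩ := h2 3 le_rfl C
  exact absurd (hC n f a b c) (not_le.2 d)

end Pool.Agent.Results.MP_1a6bb7_co.SuperlinearTangencies
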